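import Pool.Agent.FTU.Stmts

/-!
# FTU, row PFT: the profiles
-/

set_option autoImplicit false

open MeasureTheory Complex ProbabilityTheory MvPolynomial

noncomputable section

namespace Pool.Agent.FTU.H60

open Pool.Agent.Helper49_Pauli Pool.Agent.MBX Pool.Agent.FTU

/-- a bounded trigonometric polynomial of degree at most `K` -/
def BT (ell : ℝ) (K : ℕ) (f : ℝ → ℝ) : Prop :=
  (∃ B : ℝ, TP ell K B f) ∧ ∃ G : ℝ, ∀ s, |f s| ≤ G

theorem bt_one (ell : ℝ) : BT ell 0 (fun _ => 1) := by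
  refine ⟨⟨1, fun n => if n = 0 then 1 else 0, fun s => ?_, ?_⟩, 1, fun s => ?_⟩
  · simp
  · simp
  · simp

theorem bt_mul (hT : TpmStmt) {ell : ℝ} (hl : 0 < ell) {K K' : ℕ} {f g : ℝ → ℝ}
    (hf : BT ell K f) (hg : BT ell K' g) : BT ell (K + K') (fun s => f s * g s) := by
  obtain ⟨⟨B, hB⟩, G, hG⟩ := hf
  obtain ⟨⟨B', hB'⟩, G', hG'⟩ := hg
  refine ⟨⟨_, (hT ell hl).2 K K' B B' G' f g hB hB' hG'⟩, G * G', fun s => ?_⟩
  rw [abs_mul]
  exact mul_le_mul (hG s) (hG' s) (abs_nonneg _) ((abs_nonneg _).trans (hG s))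

theorem bt_pow (hT : TpmStmt) {ell : ℝ} (hl : 0 < ell) {K : ℕ} {f : ℝ → ℝ}
    (hf : BT ell K f) (m : ℕ) : BT ell (m * K) (fun s => f s ^ m) := by
  induction m with
  | zero => simpa using bt_one ell
  | succ m ih =>
    have h := bt_mul hT hl ih hf
    rw [add_mul, one_mul]
    simpa only [pow_succ] using h

theorem pft (hT : TpmStmt) (hD : DkpStmt) : PftStmt := by
  intro ell M m hl hm
  obtain ⟨d1, d2, -, ⟨B, d3⟩, d4⟩ := hD ell M hl
  constructor
  · have hW : (0 : ℝ) ≤ ell / (2 * M + 1) := by positivity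
    have b1 : BT ell M (dk ell M) := ⟨⟨_, d1⟩, 1, d2⟩
    have b2 : BT ell (M + 1) (fun s => ss ell s * dk ell M s) := ⟨⟨B, d3⟩, _, d4⟩
    have b3 := bt_mul hT hl (bt_pow hT hl b2 m) (bt_pow hT hl b1 (3 - m))
    obtain ⟨⟨B', hB'⟩, -⟩ := b3
    have hG : ∀ s, |(ss ell s * dk ell M s) ^ m * dk ell M s ^ (3 - m)| ≤
        (ell / (2 * M + 1)) ^ m := by
      intro s
      rw [abs_mul, abs_pow, abs_pow]
      calc |ss ell s * dk ell M s| ^ m * |dk ell M s| ^ (3 - m)
          ≤ (ell / (2 * M + 1)) ^ m * 1 :=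
            mul_le_mul (pow_le_pow_left₀ (abs_nonneg _) (d4 s) m)
              (pow_le_one₀ (abs_nonneg _) (d2 s)) (by positivity) (by positivity)
        _ = _ := mul_one _
    have h := (hT ell hl).2 _ _ _ _ _ _ _ d1 hB' hG
    have e : (fun s => dk ell M s * ((ss ell s * dk ell M s) ^ m * dk ell M s ^ (3 - m))) =
        pf ell M m := by
      funext s
      unfold pf
      have : (4 : ℕ) = 1 + m + (3 - m) := by omega
      rw [this, pow_add, pow_add, mul_pow, pow_one]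
      ring
    rw [e] at h
    refine (hT ell hl).1 _ _ _ _ _ ?_ ?_ h
    · have hm' : m = 0 ∨ m = 1 ∨ m = 2 ∨ m = 3 := by omega
      rcases hm' with rfl | rfl | rfl | rfl <;> omega
    · apply le_of_eq
      rw [← pow_mul, mul_comm m 2, mul_one_div]
  · unfold pf ss dk
    fun_prop

end Pool.Agent.FTU.H60
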