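import Pool.Agent.FTU.Stmts

/-!
# FTU, row XIN: integrals over the position
-/

set_option autoImplicit false

open MeasureTheory Complex ProbabilityTheory MvPolynomial

noncomputable section

namespace Pool.Agent.FTU.H60

open Pool.Agent.Helper49_Pauli Pool.Agent.MBX Pool.Agent.FTU

/-- `(1 + s)^m exp (-s^2/2) ≤ m! e^2 exp (-s^2/4)` -/
theorem one_dim (m : ℕ) (s : ℝ) (hs : 0 ≤ s) :
    (1 + s) ^ m * Real.exp (-(s ^ 2 / 2)) ≤
      (m.factorial * Real.exp 2) * Real.exp (-(s ^ 2 / 4)) := by
  have h1 : (1 + s) ^ m ≤ m.factorial * Real.exp (1 + s) := by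
    have h2 := Real.pow_div_factorial_le_exp (1 + s) (by linarith) m
    have h3 : (0 : ℝ) < m.factorial := by exact_mod_cast Nat.factorial_pos m
    rw [div_le_iff₀ h3] at h2
    linarith
  calc (1 + s) ^ m * Real.exp (-(s ^ 2 / 2))
      ≤ (m.factorial * Real.exp (1 + s)) * Real.exp (-(s ^ 2 / 2)) :=
        mul_le_mul_of_nonneg_right h1 (Real.exp_pos _).le
    _ = m.factorial * Real.exp (1 + s + -(s ^ 2 / 2)) := by rw [mul_assoc, ← Real.exp_add]
    _ ≤ m.factorial * Real.exp (2 + -(s ^ 2 / 4)) := by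
        apply mul_le_mul_of_nonneg_left _ (by positivity)
        apply Real.exp_le_exp.2
        nlinarith [sq_nonneg (s / 2 - 1)]
    _ = (m.factorial * Real.exp 2) * Real.exp (-(s ^ 2 / 4)) := by
        rw [Real.exp_add, mul_assoc]

theorem norm_zt (et : ℝ) (het : 0 < et) (x : X3) :
    ‖zt et x‖ ≤ |x 0| / et ^ 2 + |x 1| / et ^ 2 := by
  unfold zt
  rw [norm_div, norm_pow, Complex.norm_real, Real.norm_eq_abs, abs_of_pos het, ← add_div]
  apply div_le_div_of_nonneg_right _ (by positivity)
  refine (norm_add_le _ _).trans ?_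
  rw [norm_mul, Complex.norm_I, one_mul, Complex.norm_real, Complex.norm_real, Real.norm_eq_abs,
    Real.norm_eq_abs]

theorem gs_sq (et : ℝ) (x : X3) :
    gs et x ^ 2 = Real.exp (-((|x 0| / et ^ 2) ^ 2 / 2)) * Real.exp (-((|x 1| / et ^ 2) ^ 2 / 2)) := by
  unfold gs
  rw [← Real.exp_nat_mul, ← Real.exp_add]
  congr 1
  rw [div_pow, div_pow, sq_abs, sq_abs]
  push_cast
  ring

/-- the dominating function -/
def dom (K b l : ℝ) (i : Fin 3) (s : ℝ) : ℝ :=
  if i = 2 then Set.indicator (Set.Icc (-l) l) (fun _ => (1 : ℝ)) s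
  else K * Real.exp (-b * s ^ 2)

theorem dom_nonneg {K b l : ℝ} (hK : 0 ≤ K) (i : Fin 3) (s : ℝ) : 0 ≤ dom K b l i s := by
  unfold dom
  split_ifs
  · exact Set.indicator_nonneg (fun _ _ => zero_le_one) _
  · positivity

theorem dom_int {K b l : ℝ} (hb : 0 < b) (i : Fin 3) : Integrable (dom K b l i) := by
  unfold dom
  split_ifs
  · exact (integrable_indicator_iff measurableSet_Icc).2 (integrableOn_const (by simp))
  · exact (integrable_exp_neg_mul_sq hb).const_mul K

theorem dom_integral {K b l : ℝ} (hl : 0 ≤ l) (i : Fin 3) :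
    ∫ s, dom K b l i s = if i = 2 then 2 * l else K * Real.sqrt (Real.pi / b) := by
  unfold dom
  split_ifs
  · rw [integral_indicator measurableSet_Icc, setIntegral_const, smul_eq_mul, mul_one,
      Measure.real, Real.volume_Icc, ENNReal.toReal_ofReal (by linarith)]
    ring
  · rw [integral_const_mul, integral_gaussian]

theorem point (m : ℕ) (et l : ℝ) (het : 0 < et) (x : X3) :
    cube l x * (1 + ‖zt et x‖) ^ m * gs et x ^ 2 ≤
      ∏ i, dom (m.factorial * Real.exp 2) (1 / (4 * et ^ 4)) l i (x i) := by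
  have hK : (0 : ℝ) ≤ m.factorial * Real.exp 2 := by positivity
  unfold cube
  by_cases h : ∀ j, |x j| ≤ l
  · rw [if_pos h, one_mul, Fin.prod_univ_three]
    have h2 : dom (m.factorial * Real.exp 2) (1 / (4 * et ^ 4)) l 2 (x 2) = 1 := by
      unfold dom
      rw [if_pos rfl]
      exact Set.indicator_of_mem (show x 2 ∈ Set.Icc (-l) l from abs_le.1 (h 2))
        (fun _ : ℝ => (1 : ℝ))
    rw [h2, mul_one, gs_sq]
    have h3 : ∀ i : Fin 3, i ≠ 2 → dom (m.factorial * Real.exp 2) (1 / (4 * et ^ 4)) l i (x i) =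
        (m.factorial * Real.exp 2) * Real.exp (-((|x i| / et ^ 2) ^ 2 / 4)) := by
      intro i hi
      unfold dom
      rw [if_neg hi, div_pow, sq_abs]
      congr 2
      field_simp
    rw [h3 0 (by decide), h3 1 (by decide)]
    have s0 : 0 ≤ |x 0| / et ^ 2 := by positivity
    have s1 : 0 ≤ |x 1| / et ^ 2 := by positivity
    have h4 : (1 + ‖zt et x‖) ^ m ≤ (1 + |x 0| / et ^ 2) ^ m * (1 + |x 1| / et ^ 2) ^ m := by
      rw [← mul_pow]
      apply pow_le_pow_left₀ (by positivity)
      have := norm_zt et het x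
      nlinarith
    have e0 := one_dim m _ s0
    have e1 := one_dim m _ s1
    calc (1 + ‖zt et x‖) ^ m * (Real.exp (-((|x 0| / et ^ 2) ^ 2 / 2)) *
          Real.exp (-((|x 1| / et ^ 2) ^ 2 / 2)))
        ≤ ((1 + |x 0| / et ^ 2) ^ m * (1 + |x 1| / et ^ 2) ^ m) *
          (Real.exp (-((|x 0| / et ^ 2) ^ 2 / 2)) * Real.exp (-((|x 1| / et ^ 2) ^ 2 / 2))) :=
          mul_le_mul_of_nonneg_right h4 (by positivity)
      _ = ((1 + |x 0| / et ^ 2) ^ m * Real.exp (-((|x 0| / et ^ 2) ^ 2 / 2))) *
          ((1 + |x 1| / et ^ 2) ^ m * Real.exp (-((|x 1| / et ^ 2) ^ 2 / 2))) := by ring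
      _ ≤ _ := mul_le_mul e0 e1 (by positivity) (by positivity)
  · rw [if_neg h, zero_mul, zero_mul]
    exact Finset.prod_nonneg fun i _ => dom_nonneg hK i _

theorem meas_cube (l : ℝ) : Measurable (cube l) := by
  unfold cube
  refine Measurable.ite ?_ measurable_const measurable_const
  have : {x : X3 | ∀ j, |x j| ≤ l} = ⋂ j, {x : X3 | |x j| ≤ l} := by
    ext x
    simp
  rw [this]
  refine MeasurableSet.iInter fun j => ?_
  exact measurableSet_le ((measurable_pi_apply j).abs) measurable_const

theorem cont_zt (et : ℝ) : Continuous (zt et) := by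
  unfold zt
  fun_prop

theorem cont_gs (et : ℝ) : Continuous (gs et) := by
  unfold gs
  fun_prop

theorem part1 (m : ℕ) (et l : ℝ) (het : 0 < et) (hl : 1 ≤ l) :
    Integrable (fun x : X3 => cube l x * (1 + ‖zt et x‖) ^ m * gs et x ^ 2) ∧
    ∫ x : X3, cube l x * (1 + ‖zt et x‖) ^ m * gs et x ^ 2 ≤
      (8 * Real.pi * (m.factorial * Real.exp 2) ^ 2) * (l * et ^ 4) := by
  have hb : (0 : ℝ) < 1 / (4 * et ^ 4) := by positivity
  have hD : Integrable (fun x : X3 =>
      ∏ i, dom (m.factorial * Real.exp 2) (1 / (4 * et ^ 4)) l i (x i)) :=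
    Integrable.fintype_prod (f := fun i => dom (m.factorial * Real.exp 2) (1 / (4 * et ^ 4)) l i)
      fun i => dom_int hb i
  have hc0 : ∀ x, 0 ≤ cube l x := by
    intro x
    unfold cube
    split_ifs
    · exact zero_le_one
    · exact le_rfl
  have hI : Integrable (fun x : X3 => cube l x * (1 + ‖zt et x‖) ^ m * gs et x ^ 2) := by
    refine hD.mono' ?_ (Filter.Eventually.of_forall fun x => ?_)
    · refine Measurable.aestronglyMeasurable ?_
      refine ((meas_cube l).mul ?_).mul ?_
      · exact (Continuous.measurable (by have := cont_zt et; fun_prop))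
      · exact (Continuous.measurable (by have := cont_gs et; fun_prop))
    · rw [Real.norm_eq_abs, abs_of_nonneg]
      · exact point m et l het x
      · have := hc0 x
        positivity
  refine ⟨hI, ?_⟩
  refine (integral_mono hI hD fun x => point m et l het x).trans ?_
  have h1 : ∫ x : X3, ∏ i, dom (m.factorial * Real.exp 2) (1 / (4 * et ^ 4)) l i (x i) =
      ∏ i, ∫ s, dom (m.factorial * Real.exp 2) (1 / (4 * et ^ 4)) l i s :=
    integral_fintype_prod_eq_prod
      (fun i => dom (m.factorial * Real.exp 2) (1 / (4 * et ^ 4)) l i)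
  rw [h1, Fin.prod_univ_three, dom_integral (by linarith), dom_integral (by linarith),
    dom_integral (by linarith), if_neg (by decide), if_neg (by decide), if_pos rfl]
  have h2 : Real.sqrt (Real.pi / (1 / (4 * et ^ 4))) * Real.sqrt (Real.pi / (1 / (4 * et ^ 4))) =
      4 * Real.pi * et ^ 4 := by
    rw [Real.mul_self_sqrt (by positivity)]
    field_simp
  apply le_of_eq
  calc (m.factorial : ℝ) * Real.exp 2 * Real.sqrt (Real.pi / (1 / (4 * et ^ 4))) *
        ((m.factorial : ℝ) * Real.exp 2 * Real.sqrt (Real.pi / (1 / (4 * et ^ 4)))) * (2 * l)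
      = ((m.factorial : ℝ) * Real.exp 2) ^ 2 * (Real.sqrt (Real.pi / (1 / (4 * et ^ 4))) *
        Real.sqrt (Real.pi / (1 / (4 * et ^ 4)))) * (2 * l) := by ring
    _ = _ := by
      rw [h2]
      ring

/-- the lower function -/
def low (e l : ℝ) (i : Fin 3) (s : ℝ) : ℝ :=
  if i = 2 then Set.indicator (Set.Icc (-(l / 2)) (l / 2)) (fun _ => (1 : ℝ)) s
  else Set.indicator (Set.Icc (-(e / 2)) (e / 2)) (fun _ => (1 : ℝ)) s

theorem low_int (e l : ℝ) (i : Fin 3) : Integrable (low e l i) := by
  unfold low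
  split_ifs
  · exact (integrable_indicator_iff measurableSet_Icc).2 (integrableOn_const (by simp))
  · exact (integrable_indicator_iff measurableSet_Icc).2 (integrableOn_const (by simp))

theorem low_integral {e l : ℝ} (he : 0 ≤ e) (hl : 0 ≤ l) (i : Fin 3) :
    ∫ s, low e l i s = if i = 2 then l else e := by
  unfold low
  split_ifs
  · rw [integral_indicator measurableSet_Icc, setIntegral_const, smul_eq_mul, mul_one,
      Measure.real, Real.volume_Icc, ENNReal.toReal_ofReal (by linarith)]
    ring
  · rw [integral_indicator measurableSet_Icc, setIntegral_const, smul_eq_mul, mul_one,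
      Measure.real, Real.volume_Icc, ENNReal.toReal_ofReal (by linarith)]
    ring

theorem xin : XinStmt := by
  refine ⟨fun m => ⟨8 * Real.pi * (m.factorial * Real.exp 2) ^ 2, by positivity,
    fun et l h1 h2 h3 => part1 m et l h1 h3⟩, Real.exp (-(1 / 4)), Real.exp_pos _, ?_⟩
  intro bp CB hbp et l het het1 hl
  have hl0 : 0 < l := by linarith
  have he : 0 < et ^ 2 := by positivity
  have hsc : ∀ x, 0 ≤ sc bp l x := fun x => hbp.nonneg _
  have hG := (part1 0 et l het hl).1
  have hcsc : Continuous (sc bp l) := by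
    unfold sc
    have := hbp.smooth.continuous
    fun_prop
  have hI : Integrable (fun x : X3 => sc bp l x ^ 2 * gs et x ^ 2) := by
    refine hG.mono' ?_ (Filter.Eventually.of_forall fun x => ?_)
    · refine Continuous.aestronglyMeasurable ?_
      have := cont_gs et
      fun_prop
    · rw [Real.norm_eq_abs, abs_of_nonneg (by positivity), pow_zero, mul_one]
      apply mul_le_mul_of_nonneg_right _ (by positivity)
      unfold cube
      split_ifs with h
      · exact pow_le_one₀ (hsc x) (hbp.le_one _)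
      · push Not at h
        obtain ⟨j, hj⟩ := h
        have : sc bp l x = 0 := by
          apply hbp.zero
          refine ⟨j, ?_⟩
          show 1 ≤ |l⁻¹ * x j|
          rw [abs_mul, abs_of_pos (inv_pos.2 hl0), inv_mul_eq_div, le_div_iff₀ hl0]
          linarith
        rw [this]
        simp
  have hL : Integrable (fun x : X3 => Real.exp (-(1 / 4)) * ∏ i, low (et ^ 2) l i (x i)) :=
    (Integrable.fintype_prod (f := fun i => low (et ^ 2) l i)
      fun i => low_int (et ^ 2) l i).const_mul _
  have hle : ∀ x : X3, Real.exp (-(1 / 4)) * ∏ i, low (et ^ 2) l i (x i) ≤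
      sc bp l x ^ 2 * gs et x ^ 2 := by
    intro x
    rw [Fin.prod_univ_three]
    unfold low
    rw [if_neg (by decide), if_neg (by decide), if_pos rfl]
    by_cases h0 : x 0 ∈ Set.Icc (-(et ^ 2 / 2)) (et ^ 2 / 2)
    · by_cases h1 : x 1 ∈ Set.Icc (-(et ^ 2 / 2)) (et ^ 2 / 2)
      · by_cases h2 : x 2 ∈ Set.Icc (-(l / 2)) (l / 2)
        · rw [Set.indicator_of_mem h0, Set.indicator_of_mem h1, Set.indicator_of_mem h2, mul_one,
            mul_one, mul_one]
          have a0 : |x 0| ≤ et ^ 2 / 2 := abs_le.2 h0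
          have a1 : |x 1| ≤ et ^ 2 / 2 := abs_le.2 h1
          have a2 : |x 2| ≤ l / 2 := abs_le.2 h2
          have het2 : et ^ 2 ≤ 1 := pow_le_one₀ het.le het1
          have hone : sc bp l x = 1 := by
            apply hbp.one
            intro j
            show |l⁻¹ * x j| ≤ 1 / 2
            rw [abs_mul, abs_of_pos (inv_pos.2 hl0), inv_mul_eq_div, div_le_iff₀ hl0]
            fin_cases j
            · show |x 0| ≤ _
              linarith
            · show |x 1| ≤ _
              linarith
            · show |x 2| ≤ _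
              linarith
          rw [hone, one_pow, one_mul, gs_sq, ← Real.exp_add]
          apply Real.exp_le_exp.2
          have b0 : |x 0| / et ^ 2 ≤ 1 / 2 := by
            rw [div_le_iff₀ he]
            linarith
          have b1 : |x 1| / et ^ 2 ≤ 1 / 2 := by
            rw [div_le_iff₀ he]
            linarith
          have c0 : (|x 0| / et ^ 2) ^ 2 ≤ (1 / 2) ^ 2 :=
            pow_le_pow_left₀ (by positivity) b0 2
          have c1 : (|x 1| / et ^ 2) ^ 2 ≤ (1 / 2) ^ 2 :=
            pow_le_pow_left₀ (by positivity) b1 2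
          linarith
        · rw [Set.indicator_of_notMem h2, mul_zero, mul_zero]
          positivity
      · rw [Set.indicator_of_notMem h1, mul_zero, zero_mul, mul_zero]
        positivity
    · rw [Set.indicator_of_notMem h0, zero_mul, zero_mul, mul_zero]
      positivity
  refine le_trans (le_of_eq ?_) (integral_mono hL hI hle)
  have h1 : ∫ x : X3, ∏ i, low (et ^ 2) l i (x i) = ∏ i, ∫ s, low (et ^ 2) l i s :=
    integral_fintype_prod_eq_prod (fun i => low (et ^ 2) l i)
  rw [integral_const_mul, h1, Fin.prod_univ_three, low_integral he.le hl0.le,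
    low_integral he.le hl0.le, low_integral he.le hl0.le, if_neg (by decide),
    if_neg (by decide), if_pos rfl]
  ring

end Pool.Agent.FTU.H60
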